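import Pool.Agent.H132.ST.Main

/-!
# Lattice knots under a large stretching force

Words over the six unit directions describe lattice walks (the last letter is the first step),
`KN.SAP` are the closed self-avoiding words, `KN.KT k` the closed words of the knot type of the
polygon `k`, `KN.K Q n` the closed self-avoiding words of length `n` in the class `Q`.
-/

set_option autoImplicit false

namespace Pool.Agent.Results.MP_aea6d5_co.StretchedKnots

open KN KN.KQ Filter Topology
open scoped Classical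

noncomputable section

/-- the extent of a word in the direction of the first axis -/
def span (w : List Dir) : ℕ :=
  ((path w).toFinset ×ˢ (path w).toFinset).sup (fun x => (x.1.1 - x.2.1).natAbs)

/-- the partition function of the polygons of length `n` (up to translation) of the knot type of
`k` that are stretched along the first axis: the sum of `y ^ extent`; every polygon corresponds to
`2 n` words -/
def Z (y : ℝ) (k : List V) (n : ℕ) : ℝ := (∑ w ∈ K (KT k) n, y ^ span w) / (2 * n)

/-- `k` is a connected sum of `N` nontrivial knots -/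
def SumOf : ℕ → List V → Prop
  | 0, k => Same k sq
  | N + 1, k => ∃ k' l : List V, SumOf N k' ∧ ¬ Same l sq ∧ IsSum k' l k

/-- `N` is the largest number of nontrivial knots whose connected sum is `k` -/
def Factors (k : List V) (N : ℕ) : Prop := SumOf N k ∧ ∀ M, SumOf M k → M ≤ N

theorem sumOf_iff (N : ℕ) : ∀ k : List V, SumOf N k ↔ KN.ST.SumN N k := by
  induction N with
  | zero => intro k; exact Iff.rfl
  | succ N ih =>
    intro k
    simp only [SumOf, KN.ST.SumN, ih]

theorem factors_iff (k : List V) (N : ℕ) : Factors k N ↔ KN.ST.MaxN k N := by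
  simp only [Factors, KN.ST.MaxN, sumOf_iff]

theorem Z_eq (y : ℝ) (k : List V) (n : ℕ) : Z y k n = KN.ST.Sr y k n / (2 * n) := rfl

/-- At large stretching force the weighted numbers of polygons of a knot type with `N` prime
factors are of the exact order `n ^ N` times those of the unknot, and they have the growth rate of
the unknot. -/
theorem result : ∃ y₀ : ℝ, 0 < y₀ ∧ ∀ y : ℝ, y₀ ≤ y → ∃ μ : ℝ, 0 < μ ∧
    Tendsto (fun j : ℕ => Z y sq (2 * j) ^ ((1 : ℝ) / (2 * j))) atTop (𝓝 μ) ∧
    ∀ (k : List V) (N : ℕ), Factors k N →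
      Tendsto (fun j : ℕ => Z y k (2 * j) ^ ((1 : ℝ) / (2 * j))) atTop (𝓝 μ) ∧
      ∃ c C : ℝ, 0 < c ∧ 0 < C ∧ ∀ᶠ j : ℕ in atTop,
        c * (2 * j : ℝ) ^ N * Z y sq (2 * j) ≤ Z y k (2 * j) ∧
        Z y k (2 * j) ≤ C * (2 * j : ℝ) ^ N * Z y sq (2 * j) := by
  obtain ⟨y₀, hy₀, hmain⟩ := KN.ST.main
  refine ⟨y₀, hy₀, fun y hy => ?_⟩
  obtain ⟨μ, hμ, hpos, hU, hK⟩ := hmain y hy
  have hy0 : 0 < y := hy₀.trans_le hy
  -- division by `2 n`
  have hdiv : ∀ k : List V, (∀ᶠ j : ℕ in atTop, 0 < KN.ST.Sr y k (2 * j)) →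
      Tendsto (fun j : ℕ => KN.ST.Sr y k (2 * j) ^ ((1 : ℝ) / (2 * j))) atTop (𝓝 μ) →
      Tendsto (fun j : ℕ => Z y k (2 * j) ^ ((1 : ℝ) / (2 * j))) atTop (𝓝 μ) := by
    intro k hp hlim
    refine KN.ST.root_lim hμ (C := 2) (by norm_num) 1 hp ?_ ?_ hlim
    · filter_upwards [eventually_ge_atTop 1] with j hj
      have h1 : (1 : ℝ) ≤ j := by exact_mod_cast hj
      rw [Z_eq, pow_one]
      apply le_of_eq
      push_cast
      field_simp
    · filter_upwards [eventually_ge_atTop 1] with j hj
      have h1 : (1 : ℝ) ≤ j := by exact_mod_cast hj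
      have h2 := KN.ST.Sr_nonneg hy0.le k (2 * j)
      rw [Z_eq, pow_one, div_le_iff₀ (by positivity)]
      push_cast
      have h3 : (1 : ℝ) ≤ 2 * (2 * (j : ℝ)) * (2 * (2 * (j : ℝ))) := by nlinarith
      nlinarith
  refine ⟨μ, hμ, hdiv sq hpos hU, fun k N hk => ?_⟩
  obtain ⟨h1, C, hC, h2⟩ := hK k N ((factors_iff k N).1 hk)
  have hkpos : ∀ᶠ j : ℕ in atTop, 0 < KN.ST.Sr y k (2 * j) := by
    filter_upwards [hpos, h2, eventually_ge_atTop 1] with j hj hj2 hj1
    have g1 : (1 : ℝ) ≤ j := by exact_mod_cast hj1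
    have g2 : 0 < (2 * j : ℝ) ^ N * KN.ST.Sr y sq (2 * j) := by positivity
    have g3 := hj2.1
    by_contra hn
    push Not at hn
    have := mul_nonpos_of_nonneg_of_nonpos hC.le hn
    linarith
  refine ⟨hdiv k hkpos h1, 1 / C, C, by positivity, hC, ?_⟩
  filter_upwards [h2, eventually_ge_atTop 1] with j hj hj1
  have g1 : (1 : ℝ) ≤ j := by exact_mod_cast hj1
  rw [Z_eq, Z_eq]
  have g2 : (0 : ℝ) < 2 * ((2 * j : ℕ) : ℝ) := by push_cast; positivity
  constructor
  · rw [← mul_div_assoc]
    refine div_le_div_of_nonneg_right ?_ g2.le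
    rw [mul_assoc, one_div, inv_mul_le_iff₀ hC]
    exact hj.1
  · rw [← mul_div_assoc]
    refine div_le_div_of_nonneg_right ?_ g2.le
    rw [mul_assoc]
    exact hj.2

end

end Pool.Agent.Results.MP_aea6d5_co.StretchedKnots
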