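import Pool.Agent.H132.LG.NoLaw

/-!
# Lattice knots under a large stretching force: the pure power form fails

Words over the six unit directions describe lattice walks (the last letter is the first step),
`KN.SAP` are the closed self-avoiding words, `KN.KT k` the closed words of the knot type of the
polygon `k`, `KN.K Q n` the closed self-avoiding words of length `n` in the class `Q`.
-/

set_option autoImplicit false

namespace Pool.Agent.Results.MP_aea6d5_co.StretchedNoPowerLaw

open KN KN.KQ Filter Topology
open scoped Classical

noncomputable section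

/-- the extent of a word in the direction of the first axis -/
def span (w : List Dir) : ℕ :=
  ((path w).toFinset ×ˢ (path w).toFinset).sup (fun x => (x.1.1 - x.2.1).natAbs)

/-- the partition function of the polygons of length `n` (up to translation) of the knot type of
`k` that are stretched along the first axis: the sum of `y ^ extent`; every polygon corresponds to
`2 n` words -/
def Z (y : ℝ) (k : List V) (n : ℕ) : ℝ := (∑ w ∈ K (KT k) n, y ^ span w) / (2 * n)

/-- `k` is a connected sum of `N` nontrivial knots -/
def SumOf : ℕ → List V → Prop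
  | 0, k => Same k sq
  | N + 1, k => ∃ k' l : List V, SumOf N k' ∧ ¬ Same l sq ∧ IsSum k' l k

/-- `N` is the largest number of nontrivial knots whose connected sum is `k` -/
def Factors (k : List V) (N : ℕ) : Prop := SumOf N k ∧ ∀ M, SumOf M k → M ≤ N

theorem sumOf_iff (N : ℕ) : ∀ k : List V, SumOf N k ↔ KN.ST.SumN N k := by
  induction N with
  | zero => intro k; exact Iff.rfl
  | succ N ih =>
    intro k
    simp only [SumOf, KN.ST.SumN, ih]

theorem factors_iff (k : List V) (N : ℕ) : Factors k N ↔ KN.ST.MaxN k N := by
  simp only [Factors, KN.ST.MaxN, sumOf_iff]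

theorem Z_eq (y : ℝ) (k : List V) (n : ℕ) : Z y k n = KN.ST.Sr y k n / (2 * n) := rfl

/-- At large stretching force the weighted number of polygons of a knot type (with a finite number
of prime factors) is not asymptotic to `A n ^ (α - 3) g ^ n`, for any constants. -/
theorem result : ∃ y₁ : ℝ, 0 < y₁ ∧ ∀ y : ℝ, y₁ ≤ y → ∀ (k : List V) (N : ℕ), Factors k N →
    ∀ A α g : ℝ, 0 < A → 0 < g →
      ¬ Tendsto (fun j : ℕ => Z y k (2 * j) / ((2 * j : ℝ) ^ (α - 3) * g ^ (2 * j))) atTop
        (𝓝 A) := by
  obtain ⟨y₁, hy₁, h⟩ := KN.ST.no_power_law
  exact ⟨y₁, hy₁, fun y hy k N hk A α g hA hg => h y hy k N ((factors_iff k N).1 hk) A α g hA hg⟩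

end

end Pool.Agent.Results.MP_aea6d5_co.StretchedNoPowerLaw
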